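import Pool.Agent.U691.GF.Top

set_option autoImplicit false

/-!
# Goncharov's complexes of `F_q(x)`: acyclic in weights two and three, and degrees `1, n - 1, n` in weight `n`

Let `F = k(x)`, `k` any algebraic extension of `F_p`, for instance a finite field. By theorems of Harder and Quillen
`K_m(F) ⊗ ℚ = 0` for `m ≥ 2`, so Goncharov's conjecture says that `Γ(F,n) ⊗ ℚ` is acyclic for all `n ≥ 2`. We prove

* `H^1 = H^{n-1} = H^n = 0` for `Γ(F,n) ⊗ ℚ`, for all `n ≥ 2`;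
* in particular `Γ(F,2) ⊗ ℚ` and `Γ(F,3) ⊗ ℚ` are acyclic: the conjecture holds for these fields in the weights `n ≤ 3`.

(The starting results have the acyclicity in all weights if `k` is algebraically closed, and `H^1 = 0` for many fields
of characteristic `p`, the fields `k(x)` among them.)

The proof. By duality `H^{n-1}` and `H^n` vanish for all `n` as soon as `Sym²(F^*) ⊗ F^* ⊗ ℚ` is spanned by the elements
`f ⊗ f ⊗ (1 - f)` and `F^* ⊗ F^* ⊗ ℚ` by the elements `f ⊗ (1 - f)`; this was proved, for the motivic Lie coalgebra, in the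
starting library (`Pool/Agent/Y775/W3`). The other input is the description of the functionals on `B_n(F)` by multilinear
forms (`Pool/Agent/H39R2/Gon`), which needs only that `k` is algebraic over `F_p`.

The definitions are in `Pool/Agent/H39R2/GonP/Defs.lean`: the term of degree `i ≤ n - 1` of `Γ(F,n) ⊗ ℚ` is
`TQ F (n - i + 1) (i - 1)`, the term of degree `n` is `LQ F n`.
-/

namespace Pool.Agent.Results.MP_9c6ec7_al.GlobalRationalFunctionFields

open GonP

/-- Let `F = k(x)`, `k` algebraic over `F_p`. The differentials of the complexes `Γ(F,n) ⊗ ℚ`, `n ≥ 2`, exist and are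
unique, and (1) `Γ(F,2) ⊗ ℚ` is acyclic, (2) `Γ(F,3) ⊗ ℚ` is acyclic, (3) `H^1(Γ(F,n) ⊗ ℚ) = 0` for `n = m + 3`,
(4) `H^{n-1}(Γ(F,n) ⊗ ℚ) = 0` for `n = j + 3`, (5) `H^n(Γ(F,n) ⊗ ℚ) = 0` for `n = j + 2`. -/
theorem result (p : ℕ) [Fact p.Prime] (k : Type) [Field k] [Algebra (ZMod p) k]
    [Algebra.IsAlgebraic (ZMod p) k] :
    ∃ D : Differentials (RatFunc k), (∀ D' : Differentials (RatFunc k), D' = D) ∧
      -- weight two: `B_2(F)_ℚ → (Λ² F^*)_ℚ` is an isomorphism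
      Function.Bijective (D.e 0) ∧
      -- weight three: `0 → B_3(F)_ℚ → (B_2(F) ⊗ F^*)_ℚ → (Λ³ F^*)_ℚ → 0` is exact
      (Function.Injective (D.d 0 0) ∧ Function.Exact (D.d 0 0) (D.e 1) ∧ Function.Surjective (D.e 1)) ∧
      -- weight `n = m + 3`: `B_n(F)_ℚ → (B_{n-1}(F) ⊗ F^*)_ℚ` is injective
      (∀ m, Function.Injective (D.d m 0)) ∧
      -- weight `n = j + 3`: `(B_3(F) ⊗ Λ^{n-3} F^*)_ℚ → (B_2(F) ⊗ Λ^{n-2} F^*)_ℚ → (Λ^n F^*)_ℚ` is exact
      (∀ j, Function.Exact (D.d 0 j) (D.e (j + 1))) ∧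
      -- weight `n = j + 2`: `(B_2(F) ⊗ Λ^{n-2} F^*)_ℚ → (Λ^n F^*)_ℚ` is surjective
      ∀ j, Function.Surjective (D.e j) := by
  obtain ⟨D, h1, h2, h3, h4, h5⟩ := Pool.Agent.U691.GF.main p k
  exact ⟨D, h1, ⟨h3, h5 0⟩, ⟨h2 0, h4 0, h5 1⟩, h2, h4, h5⟩

end Pool.Agent.Results.MP_9c6ec7_al.GlobalRationalFunctionFields
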